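import Mathlib

set_option autoImplicit false

/-!
# One-sided random context grammars
-/

namespace Pool.Agent.R574.RE

/-- A one-sided random context grammar with terminals `T`: finitely many nonterminals `N`, a start
symbol, and finite sets of left and of right random context rules. A rule `(A → x, U, W)` is the
tuple `(A, x, U, W)`; `x` may be empty. -/
structure ORC (T : Type) where
  N : Type
  finite_N : Finite N
  start : N
  PL : Set (N × List (Symbol T N) × Set N × Set N)
  PR : Set (N × List (Symbol T N) × Set N × Set N)
  finite_PL : PL.Finite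
  finite_PR : PR.Finite

/-- One derivation step `uAv ⇒ uxv`: by a left rule `(A → x, U, W)` if all symbols of `U` and no
symbols of `W` occur in `u`, or by a right rule if this holds for `v`. -/
def ORC.Step {T : Type} (G : ORC T) (α β : List (Symbol T G.N)) : Prop :=
  ∃ (u v : List (Symbol T G.N)) (A : G.N) (x : List (Symbol T G.N)) (U W : Set G.N),
    α = u ++ [Symbol.nonterminal A] ++ v ∧ β = u ++ x ++ v ∧
    (((A, x, U, W) ∈ G.PL ∧ (∀ B ∈ U, Symbol.nonterminal B ∈ u) ∧
        (∀ B ∈ W, Symbol.nonterminal B ∉ u)) ∨
      ((A, x, U, W) ∈ G.PR ∧ (∀ B ∈ U, Symbol.nonterminal B ∈ v) ∧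
        (∀ B ∈ W, Symbol.nonterminal B ∉ v)))

/-- The generated language. -/
def ORC.language {T : Type} (G : ORC T) : Set (List T) :=
  {w | Relation.ReflTransGen G.Step [Symbol.nonterminal G.start] (w.map Symbol.terminal)}

end Pool.Agent.R574.RE
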