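import Pool.Agent.R574.RE.RC
import Pool.Agent.R574.RE.ORCDefs

set_option autoImplicit false

/-!
Left random context grammars generate all recursively enumerable languages.
-/

namespace Pool.Agent.R574.RE.Left

open Relation Pool.Agent.R574.RE
open Pool.Agent.S15649 (GR NH RI HStep)

/-- the left random context grammar of the construction for MP_fc8a61 -/
def H {T N R : Type} [Finite N] [Finite R] (g : GR T N R) (S : N) : ORC T where
  N := NH N R
  finite_N := Pool.Agent.S15649.instFiniteNH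
  start := NH.Sh
  PL := Set.range fun i : RI N R =>
    (Pool.Agent.S15649.hl g i, Pool.Agent.S15649.hr g S i, Pool.Agent.S15649.hp g i,
      Pool.Agent.S15649.hf g i)
  PR := ∅
  finite_PL := by
    have : Finite (RI N R) := Pool.Agent.S15649.instFiniteRI
    exact Set.finite_range _
  finite_PR := Set.finite_empty

theorem step_eq {T N R : Type} [Finite N] [Finite R] (g : GR T N R) (S : N) :
    (H g S).Step = HStep g S := by
  funext α β
  apply propext
  constructor
  · rintro ⟨u, v, A, x, U, W, h1, h2, ⟨⟨i, hi⟩, h4, h5⟩ | ⟨h3, _⟩⟩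
    · simp only [Prod.mk.injEq] at hi
      obtain ⟨rfl, rfl, rfl, rfl⟩ := hi
      exact ⟨i, u, v, h1, h2, h4, h5⟩
    · exact absurd h3 (Set.notMem_empty _)
  · rintro ⟨i, u, v, h1, h2, h4, h5⟩
    exact ⟨u, v, _, _, _, _, h1, h2, Or.inl ⟨⟨i, rfl⟩, h4, h5⟩⟩

theorem left_rc {k : ℕ} (L : Set (List (Fin k))) (hL : REPred fun w => w ∈ L) :
    ∃ G : ORC (Fin k), G.PR = ∅ ∧ G.language = L := by
  obtain ⟨K, Q, dK, fK, fQ, q0, qf, δ, hδ, hL'⟩ := re_counter L hL
  have f1 : Finite (RC.N δ) := RC.finite_N δ hδ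
  have f2 : Finite (RC.RN δ) := RC.finite_R δ hδ
  refine ⟨H (RC.g δ qf) (RC.NT.st q0), rfl, ?_⟩
  ext w
  rw [hL' w, ← RC.gen_iff]
  show ReflTransGen (H (RC.g δ qf) (RC.NT.st q0)).Step _ _ ↔ _
  rw [step_eq]
  exact ⟨Pool.Agent.S15649.sound _ _ w, Pool.Agent.S15649.complete _ _ w⟩

end Pool.Agent.R574.RE.Left
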