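import Pool.Agent.W937.FG.All

set_option autoImplicit false

/-!
Exact counter programs: budget programs as exact programs with outputs.
-/

namespace Pool.Agent.R574.RE

open Relation Function Pool.Agent.W937.FG
open Pool.Agent.W978.FG (seq_iff inc_iff dec_iff zero_iff star_iff)

/-- operations without outputs -/
def liftO (T : Type) : Op Empty ℕ → Op T ℕ
  | .nop => .nop
  | .inc i => .inc i
  | .dec i => .dec i
  | .zero i => .zero i
  | .out c => c.elim

/-- programs without outputs -/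
def liftP (T : Type) : Prog Empty ℕ → Prog T ℕ
  | .op o => .op (liftO T o)
  | .seq p q => .seq (liftP T p) (liftP T q)
  | .alt p q => .alt (liftP T p) (liftP T q)
  | .star p => .star (liftP T p)

variable {T : Type}

theorem exec_of_mexec {M : Prog Empty ℕ} {c d : ℕ × (ℕ → ℕ)} (h : MExec M c d) :
    Exec false (liftP T M) c.2 [] d.2 := by
  induction h with
  | nop c => exact Exec.op ⟨rfl, rfl⟩
  | inc i x s => exact Exec.op ⟨rfl, rfl⟩
  | dec i x s h => exact Exec.op ⟨rfl, Or.inl ⟨h, rfl⟩⟩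
  | zero i x s h => exact Exec.op ⟨rfl, h, rfl⟩
  | seq _ _ ih1 ih2 => exact Exec.seq (w := []) (x := []) ih1 ih2
  | altl _ ih => exact Exec.altl ih
  | altr _ ih => exact Exec.altr ih
  | star_nil c => exact Exec.star_nil
  | star_cons _ _ ih1 ih2 => exact Exec.star_cons (w := []) (x := []) ih1 ih2

theorem mexec_shift {M : Prog Empty ℕ} {c d : ℕ × (ℕ → ℕ)} (h : MExec M c d) (y : ℕ) :
    MExec M (c.1 + y, c.2) (d.1 + y, d.2) := by
  induction h with
  | nop c => exact MExec.nop _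
  | inc i x s =>
    have : x + 1 + y = x + y + 1 := by omega
    show MExec _ (x + 1 + y, s) (x + y, _)
    rw [this]
    exact MExec.inc _ _ _
  | dec i x s h =>
    have : x + 1 + y = x + y + 1 := by omega
    show MExec _ (x + y, s) (x + 1 + y, _)
    rw [this]
    exact MExec.dec _ _ _ h
  | zero i x s h => exact MExec.zero _ _ _ h
  | seq _ _ ih1 ih2 => exact MExec.seq ih1 ih2
  | altl _ ih => exact MExec.altl ih
  | altr _ ih => exact MExec.altr ih
  | star_nil c => exact MExec.star_nil _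
  | star_cons _ _ ih1 ih2 => exact MExec.star_cons ih1 ih2

theorem mexec_of_exec (M : Prog Empty ℕ) : ∀ (s : ℕ → ℕ) (w : List T) (s' : ℕ → ℕ),
    Exec false (liftP T M) s w s' → w = [] ∧ ∃ x x', MExec M (x, s) (x', s') := by
  induction M with
  | op o =>
    intro s w s' h
    cases h with
    | op h =>
      cases o with
      | nop =>
        obtain ⟨rfl, rfl⟩ := h
        exact ⟨rfl, 0, 0, MExec.nop _⟩
      | inc i =>
        obtain ⟨rfl, rfl⟩ := h
        exact ⟨rfl, 1, 0, MExec.inc _ _ _⟩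
      | dec i =>
        obtain ⟨rfl, ⟨h1, rfl⟩ | ⟨h1, _⟩⟩ := h
        · exact ⟨rfl, 0, 1, MExec.dec _ _ _ h1⟩
        · exact absurd h1 (by simp)
      | zero i =>
        obtain ⟨rfl, h1, rfl⟩ := h
        exact ⟨rfl, 0, 0, MExec.zero _ _ _ h1⟩
      | out c => exact c.elim
  | seq p q ihp ihq =>
    intro s w s' h
    cases h with
    | seq h1 h2 =>
      obtain ⟨rfl, x, x1, h3⟩ := ihp _ _ _ h1
      obtain ⟨rfl, x2, x', h4⟩ := ihq _ _ _ h2
      refine ⟨rfl, x + x2, x' + x1, ?_⟩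
      have h5 := mexec_shift h3 x2
      have h6 := mexec_shift h4 x1
      have : x1 + x2 = x2 + x1 := by omega
      simp only at h5 h6
      rw [this] at h5
      exact MExec.seq h5 h6
  | alt p q ihp ihq =>
    intro s w s' h
    cases h with
    | altl h1 =>
      obtain ⟨rfl, x, x1, h3⟩ := ihp _ _ _ h1
      exact ⟨rfl, x, x1, MExec.altl h3⟩
    | altr h1 =>
      obtain ⟨rfl, x, x1, h3⟩ := ihq _ _ _ h1
      exact ⟨rfl, x, x1, MExec.altr h3⟩
  | star p ih =>
    intro s w s' h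
    refine Pool.Agent.W52.FG.G3.star_ind
      (C := fun s w s' => w = [] ∧ ∃ x x', MExec (.star p) (x, s) (x', s')) ?_ ?_ h
    · intro s
      exact ⟨rfl, 0, 0, MExec.star_nil _⟩
    · rintro s t u w x h1 _ ⟨rfl, x2, x', h4⟩
      obtain ⟨rfl, x0, x1, h3⟩ := ih _ _ _ h1
      refine ⟨rfl, x0 + x2, x' + x1, ?_⟩
      have h5 := mexec_shift h3 x2
      have h6 := mexec_shift h4 x1
      have : x1 + x2 = x2 + x1 := by omega
      simp only at h5 h6
      rw [this] at h5
      exact MExec.star_cons h5 h6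

theorem exec_lift_iff (M : Prog Empty ℕ) (s : ℕ → ℕ) (w : List T) (s' : ℕ → ℕ) :
    Exec false (liftP T M) s w s' ↔ w = [] ∧ ∃ x x', MExec M (x, s) (x', s') := by
  constructor
  · exact mexec_of_exec M s w s'
  · rintro ⟨rfl, x, x', h⟩
    exact exec_of_mexec h

/-- the exact effect of a program as a relation on register contents -/
def Ex (M : Prog Empty ℕ) (s s' : ℕ → ℕ) : Prop := ∃ x x', MExec M (x, s) (x', s')

theorem ex_seq {p q : Prog Empty ℕ} {s s' : ℕ → ℕ} :
    Ex (.seq p q) s s' ↔ ∃ t, Ex p s t ∧ Ex q t s' := by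
  constructor
  · rintro ⟨x, x', h⟩
    obtain ⟨⟨y, t⟩, h1, h2⟩ := seq_iff.mp h
    exact ⟨t, ⟨_, _, h1⟩, ⟨_, _, h2⟩⟩
  · rintro ⟨t, ⟨x, x1, h3⟩, ⟨x2, x', h4⟩⟩
    refine ⟨x + x2, x' + x1, ?_⟩
    have h5 := mexec_shift h3 x2
    have h6 := mexec_shift h4 x1
    have : x1 + x2 = x2 + x1 := by omega
    simp only at h5 h6
    rw [this] at h5
    exact MExec.seq h5 h6

theorem ex_inc {i : ℕ} {s s' : ℕ → ℕ} : Ex (.op (.inc i)) s s' ↔ s' = update s i (s i + 1) := by
  constructor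
  · rintro ⟨x, x', h⟩
    exact (inc_iff.mp h).2
  · rintro rfl
    exact ⟨1, 0, MExec.inc _ _ _⟩

theorem ex_dec {i : ℕ} {s s' : ℕ → ℕ} :
    Ex (.op (.dec i)) s s' ↔ 0 < s i ∧ s' = update s i (s i - 1) := by
  constructor
  · rintro ⟨x, x', h⟩
    obtain ⟨h1, _, h2⟩ := dec_iff.mp h
    exact ⟨h1, h2⟩
  · rintro ⟨h, rfl⟩
    exact ⟨0, 1, MExec.dec _ _ _ h⟩

theorem ex_zero {i : ℕ} {s s' : ℕ → ℕ} : Ex (.op (.zero i)) s s' ↔ s i = 0 ∧ s' = s := by
  constructor
  · rintro ⟨x, x', h⟩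
    obtain ⟨h1, _, h2⟩ := zero_iff.mp h
    exact ⟨h1, h2⟩
  · rintro ⟨h, rfl⟩
    exact ⟨0, 0, MExec.zero _ _ _ h⟩

theorem ex_clear {i : ℕ} {s s' : ℕ → ℕ} : Ex (clearP i) s s' ↔ s' = update s i 0 := by
  constructor
  · rintro ⟨x, x', h⟩
    exact ((hC0.1 i x x' s s').mp h).1
  · rintro rfl
    exact ⟨0, 0 + s i, (hC0.1 i 0 _ s _).mpr ⟨rfl, rfl⟩⟩

theorem ex_move {i j : ℕ} (hij : i ≠ j) {s s' : ℕ → ℕ} :
    Ex (moveP i j) s s' ↔ s' = update (update s i 0) j (s j + s i) := by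
  constructor
  · rintro ⟨x, x', h⟩
    exact ((hC0.2.1 i j x x' s s' hij).mp h).1
  · rintro rfl
    exact ⟨0, 0, (hC0.2.1 i j 0 0 s _ hij).mpr ⟨rfl, rfl⟩⟩

/-- star of an increment -/
theorem ex_star_inc {i : ℕ} {s s' : ℕ → ℕ} :
    Ex (.star (.op (.inc i))) s s' ↔ ∃ m, s' = update s i (s i + m) := by
  constructor
  · rintro ⟨x, x', h⟩
    rw [star_iff] at h
    generalize hc : ((x, s) : ℕ × (ℕ → ℕ)) = c at h
    generalize hd : ((x', s') : ℕ × (ℕ → ℕ)) = d at h
    induction h generalizing x' s' with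
    | refl =>
      rw [← hc] at hd
      cases hd
      exact ⟨0, by simp⟩
    | @tail b d _ h2 ih =>
      subst hd
      obtain ⟨z, w⟩ := b
      obtain ⟨m, rfl⟩ := ih z rfl
      obtain ⟨_, rfl⟩ := inc_iff.mp h2
      refine ⟨m + 1, ?_⟩
      rw [update_idem, update_self]
      rfl
  · rintro ⟨m, rfl⟩
    refine ⟨m, 0, ?_⟩
    induction m generalizing s with
    | zero => simpa using MExec.star_nil _
    | succ m ih =>
      have h1 : MExec (.op (.inc i)) (m + 1, s) (m, update s i (s i + 1)) := MExec.inc _ _ _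
      have h2 := @ih (update s i (s i + 1))
      refine .star_cons h1 ?_
      rw [update_idem, update_self] at h2
      have e1 : s i + 1 + m = s i + (m + 1) := by omega
      rw [e1] at h2
      exact h2

/-- programs for primitive recursive functions, exact semantics -/
theorem ex_comp {n : ℕ} {f : List.Vector ℕ n → ℕ} (hf : Nat.Primrec' f) (ι : Fin n → ℕ) (s0 : ℕ)
    (hι : ∀ i, ι i < s0) : ∃ M : Prog Empty ℕ, ∀ s : ℕ → ℕ, (∀ j, s0 ≤ j → s j = 0) →
      ∀ s', Ex M s s' ↔ s' = update s s0 (f (List.Vector.ofFn fun i => s (ι i))) := by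
  obtain ⟨_, b, _, h⟩ := hC n f hf
  obtain ⟨M, hM⟩ := h ι s0 hι
  refine ⟨M, fun s hs s' => ?_⟩
  constructor
  · rintro ⟨x, x', h1⟩
    exact ((hM x s hs).1 x' s' h1).1
  · rintro rfl
    obtain ⟨x', h1⟩ := (hM (b (List.Vector.ofFn fun i => s (ι i))) s hs).2 le_rfl
    exact ⟨_, x', h1⟩

end Pool.Agent.R574.RE
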