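import Pool.Agent.R574.RE.Lift

set_option autoImplicit false

/-!
Recursively enumerable languages are the languages of finite automata with exact counters.
-/

namespace Pool.Agent.R574.RE

open Relation Function Pool.Agent.W937.FG

/-! ### The program -/

/-- adding a letter to a code -/
def stepN (a N : ℕ) : ℕ := Nat.succ (Nat.pair a N)

/-- the code of a word, starting from the code `N` -/
def codeN {k : ℕ} (N : ℕ) (w : List (Fin k)) : ℕ := w.foldl (fun N a => stepN a N) N

/-- the register contents with only register `0` nonzero -/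
def single (N : ℕ) : ℕ → ℕ := update (fun _ => 0) 0 N

theorem single_zero : single 0 = fun _ => 0 := by
  simp [single]

theorem single_pos (N : ℕ) {j : ℕ} (hj : 1 ≤ j) : single N j = 0 := by
  rw [single, update_of_ne (by omega)]

/-- the program for adding a letter -/
theorem exists_letter (a : ℕ) : ∃ M : Prog Empty ℕ, ∀ N s', Ex M (single N) s' ↔
    s' = single (stepN a N) := by
  have hp : Nat.Primrec' (fun v : List.Vector ℕ 1 => stepN a v.head) := by
    refine Nat.Primrec'.of_prim ?_
    unfold stepN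
    exact Primrec.succ.comp (Primrec₂.natPair.comp (Primrec.const a) Primrec.vector_head)
  obtain ⟨M, hM⟩ := ex_comp hp (fun _ => 0) 1 (by simp)
  refine ⟨.seq M (.seq (clearP 0) (moveP 1 0)), fun N s' => ?_⟩
  have h1 : ∀ s', Ex M (single N) s' ↔ s' = update (single N) 1 (stepN a N) := by
    intro s'
    have h2 := hM (single N) (fun j hj => single_pos N hj) s'
    simpa [single] using h2
  have h3 : update (update (update (update (single N) 1 (stepN a N)) 0 0) 1 0) 0
      (update (update (single N) 1 (stepN a N)) 0 0 0 +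
        update (update (single N) 1 (stepN a N)) 0 0 1) = single (stepN a N) := by
    funext j
    simp only [single, update_apply]
    split_ifs <;> simp_all
  rw [ex_seq]
  simp only [ex_seq, ex_clear, ex_move (show (1 : ℕ) ≠ 0 by omega), h1]
  constructor
  · rintro ⟨t, rfl, u, rfl, rfl⟩
    exact h3
  · rintro rfl
    exact ⟨_, rfl, _, rfl, h3.symm⟩

/-- the program for the final test -/
theorem exists_final (f : ℕ → ℕ → ℕ) (hf : Primrec₂ f) : ∃ M : Prog Empty ℕ, ∀ N,
    Ex M (single N) (fun _ => 0) ↔ ∃ m, f N m = 1 := by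
  have hp : Nat.Primrec' (fun v : List.Vector ℕ 2 => f (v.get 0) (v.get 1)) := by
    refine Nat.Primrec'.of_prim ?_
    exact hf.comp (Primrec.vector_get.comp Primrec.id (Primrec.const 0))
      (Primrec.vector_get.comp Primrec.id (Primrec.const 1))
  obtain ⟨M, hM⟩ := ex_comp hp (fun i => i.val) 2 (by intro i; omega)
  refine ⟨.seq (.star (.op (.inc 1))) (.seq M (.seq (.op (.dec 2)) (.seq (.op (.zero 2))
    (.seq (clearP 0) (clearP 1))))), fun N => ?_⟩
  have h1 : ∀ m s', Ex M (update (single N) 1 m) s' ↔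
      s' = update (update (single N) 1 m) 2 (f N m) := by
    intro m s'
    have h2 := hM (update (single N) 1 m) (fun j hj => by
      rw [update_of_ne (by omega), single_pos N (by omega)]) s'
    simpa [single] using h2
  rw [ex_seq]
  simp only [ex_star_inc, single_pos N le_rfl, zero_add]
  constructor
  · rintro ⟨t, ⟨m, rfl⟩, h2⟩
    rw [ex_seq] at h2
    obtain ⟨t, h3, h4⟩ := h2
    rw [h1] at h3
    subst h3
    rw [ex_seq] at h4
    obtain ⟨t, h5, h6⟩ := h4
    rw [ex_dec] at h5
    obtain ⟨h7, rfl⟩ := h5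
    rw [ex_seq] at h6
    obtain ⟨t, h8, _⟩ := h6
    rw [ex_zero] at h8
    refine ⟨m, ?_⟩
    have h9 := h8.1
    simp only [update_self] at h7 h9
    omega
  · rintro ⟨m, hm⟩
    refine ⟨_, ⟨m, rfl⟩, ?_⟩
    rw [ex_seq]
    refine ⟨_, (h1 m _).mpr rfl, ?_⟩
    rw [ex_seq]
    refine ⟨_, ex_dec.mpr ⟨by simp [hm], rfl⟩, ?_⟩
    rw [ex_seq]
    refine ⟨_, ex_zero.mpr ⟨by simp [hm], rfl⟩, ?_⟩
    rw [ex_seq]
    refine ⟨_, ex_clear.mpr rfl, ?_⟩
    rw [ex_clear]
    funext j
    simp only [single, update_apply, hm]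
    split_ifs <;> rfl

/-- alternatives -/
def altL {T : Type} : List (Prog T ℕ) → Prog T ℕ
  | [] => .op .nop
  | p :: ps => .alt p (altL ps)

theorem exec_altL {T : Type} (ps : List (Prog T ℕ)) (s : ℕ → ℕ) (w : List T) (s' : ℕ → ℕ) :
    Exec false (altL ps) s w s' ↔ (w = [] ∧ s' = s) ∨ ∃ p ∈ ps, Exec false p s w s' := by
  induction ps with
  | nil =>
    constructor
    · intro h
      cases h with
      | op h => exact Or.inl h
    · rintro (h | ⟨p, hp, _⟩)
      · exact Exec.op h
      · simp at hp
  | cons p ps ih =>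
    constructor
    · intro h
      cases h with
      | altl h => exact Or.inr ⟨p, List.mem_cons_self, h⟩
      | altr h =>
        rcases ih.mp h with h | ⟨q, hq, h⟩
        · exact Or.inl h
        · exact Or.inr ⟨q, List.mem_cons_of_mem _ hq, h⟩
    · rintro (h | ⟨q, hq, h⟩)
      · exact Exec.altr (ih.mpr (Or.inl h))
      · rcases List.mem_cons.mp hq with rfl | hq
        · exact Exec.altl h
        · exact Exec.altr (ih.mpr (Or.inr ⟨q, hq, h⟩))

theorem exists_prog (k : ℕ) (f : ℕ → ℕ → ℕ) (hf : Primrec₂ f) :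
    ∃ p : Prog (Fin k) ℕ, ∀ w : List (Fin k),
      Exec false p (fun _ => 0) w (fun _ => 0) ↔ ∃ m, f (codeN 0 w) m = 1 := by
  choose ML hML using fun a : Fin k => exists_letter a.val
  obtain ⟨MF, hMF⟩ := exists_final f hf
  let body : Fin k → Prog (Fin k) ℕ := fun a => .seq (liftP (Fin k) (ML a)) (.op (.out a))
  have hbody : ∀ a N w s', Exec false (body a) (single N) w s' ↔
      w = [a] ∧ s' = single (stepN a N) := by
    intro a N w s'
    constructor
    · intro h
      cases h with
      | seq h1 h2 =>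
        obtain ⟨rfl, h3⟩ := (exec_lift_iff _ _ _ _).mp h1
        have h4 := (hML a N _).mp h3
        subst h4
        cases h2 with
        | op h5 =>
          obtain ⟨rfl, rfl⟩ := h5
          exact ⟨rfl, rfl⟩
    · rintro ⟨rfl, rfl⟩
      have h1 : Exec false (liftP (Fin k) (ML a)) (single N) [] (single (stepN a N)) :=
        (exec_lift_iff _ _ _ _).mpr ⟨rfl, (hML a N _).mpr rfl⟩
      exact Exec.seq (w := []) (x := [a]) h1 (Exec.op ⟨rfl, rfl⟩)
  let loop : Prog (Fin k) ℕ := .star (altL ((List.finRange k).map body))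
  have hloop : ∀ w N s', Exec false loop (single N) w s' ↔ s' = single (codeN N w) := by
    intro w N s'
    constructor
    · intro h
      have key := Pool.Agent.W52.FG.G3.star_ind
        (C := fun s w s' => ∀ N, s = single N → s' = single (codeN N w)) ?_ ?_ h
      · exact key N rfl
      · rintro s N rfl
        rfl
      · rintro s t u w x h1 _ hC N rfl
        rcases (exec_altL _ _ _ _).mp h1 with ⟨rfl, rfl⟩ | ⟨p, hp, h2⟩
        · exact hC N rfl
        · obtain ⟨a, _, rfl⟩ := List.mem_map.mp hp
          obtain ⟨rfl, rfl⟩ := (hbody a N w t).mp h2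
          rw [hC _ rfl]
          rfl
    · rintro rfl
      induction w generalizing N with
      | nil => exact Exec.star_nil
      | cons a w ih =>
        have h1 : Exec false (altL ((List.finRange k).map body)) (single N) [a]
            (single (stepN a N)) :=
          (exec_altL _ _ _ _).mpr (Or.inr ⟨body a, List.mem_map.mpr ⟨a, List.mem_finRange a, rfl⟩,
            (hbody a N _ _).mpr ⟨rfl, rfl⟩⟩)
        exact Exec.star_cons (w := [a]) h1 (ih (stepN a N))
  refine ⟨.seq loop (liftP (Fin k) MF), fun w => ?_⟩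
  rw [← single_zero]
  constructor
  · intro h
    cases h with
    | seq h1 h2 =>
      have h3 := (hloop _ _ _).mp h1
      subst h3
      obtain ⟨rfl, h4⟩ := (exec_lift_iff _ _ _ _).mp h2
      rw [single_zero] at h4
      rw [List.append_nil]
      exact (hMF _).mp h4
  · intro h
    have h1 := (hloop w 0 _).mpr rfl
    have h2 : Exec false (liftP (Fin k) MF) (single (codeN 0 w)) [] (fun _ => 0) :=
      (exec_lift_iff _ _ _ _).mpr ⟨rfl, (hMF _).mpr h⟩
    have h3 := Exec.seq h1 h2
    rw [List.append_nil] at h3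
    rw [single_zero]
    rw [single_zero] at h3
    exact h3

/-! ### Recursively enumerable languages -/

theorem encode_fin {k : ℕ} (a : Fin k) : Encodable.encode a = a.val := rfl

theorem codeN_eq {k : ℕ} (w l : List (Fin k)) :
    codeN (Encodable.encode l) w = Encodable.encode (w.reverse ++ l) := by
  induction w generalizing l with
  | nil => rfl
  | cons a w ih =>
    have h1 : codeN (Encodable.encode l) (a :: w) = codeN (Encodable.encode (a :: l)) w := by
      rw [Encodable.encode_list_cons, encode_fin]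
      rfl
    rw [h1, ih]
    simp

theorem exists_f {k : ℕ} (L : Set (List (Fin k))) (hL : REPred fun w => w ∈ L) :
    ∃ f : ℕ → ℕ → ℕ, Primrec₂ f ∧
      ∀ w : List (Fin k), w ∈ L ↔ ∃ m, f (Encodable.encode w.reverse) m = 1 := by
  have h1 : Partrec fun w : List (Fin k) => Part.assert (w.reverse ∈ L) fun _ => Part.some () :=
    Partrec.comp hL Primrec.list_reverse.to_comp
  obtain ⟨c, hc⟩ := Nat.Partrec.Code.exists_code.mp h1
  refine ⟨fun n m => if (Nat.Partrec.Code.evaln m c n).isSome then 1 else 0, ?_, ?_⟩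
  · have h2 : Primrec fun a : ℕ × ℕ => (Nat.Partrec.Code.evaln a.2 c a.1).isSome := by
      have h3 := Nat.Partrec.Code.primrec_evaln.comp
        ((Primrec.snd.pair (Primrec.const c)).pair Primrec.fst : Primrec fun a : ℕ × ℕ =>
          ((a.2, c), a.1))
      exact Primrec.option_isSome.comp h3
    have h4 : PrimrecPred fun a : ℕ × ℕ => (Nat.Partrec.Code.evaln a.2 c a.1).isSome = true :=
      Primrec.eq.comp h2 (Primrec.const true)
    exact Primrec.ite h4 (Primrec.const 1) (Primrec.const 0)
  · intro w
    have h5 : (Nat.Partrec.Code.eval c (Encodable.encode w.reverse)).Dom ↔ w ∈ L := by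
      rw [hc]
      have h6 : (Part.assert (w.reverse.reverse ∈ L) fun _ => Part.some ()).Dom ↔ w ∈ L := by
        rw [List.reverse_reverse]
        exact ⟨fun h => h.1, fun h => ⟨h, trivial⟩⟩
      simpa [Encodable.encodek] using h6
    rw [← h5]
    constructor
    · intro h
      obtain ⟨x, hx⟩ := Part.dom_iff_mem.mp h
      obtain ⟨m, hm⟩ := Nat.Partrec.Code.evaln_complete.mp hx
      refine ⟨m, ?_⟩
      rw [Option.mem_def] at hm
      simp [hm]
    · rintro ⟨m, hm⟩
      have h6 : (Nat.Partrec.Code.evaln m c (Encodable.encode w.reverse)).isSome = true := by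
        by_contra h7
        simp [h7] at hm
      obtain ⟨x, hx⟩ := Option.isSome_iff_exists.mp h6
      exact Part.dom_iff_mem.mpr ⟨x, Nat.Partrec.Code.evaln_complete.mpr ⟨m, hx⟩⟩

theorem regs_finite (T K : Type) [DecidableEq K] (p : Prog T K) :
    ∃ (K' : Type) (_ : DecidableEq K') (_ : Finite K') (p' : Prog T K'),
      ∀ (e : Bool) (w : List T), Exec e p (fun _ => 0) w (fun _ => 0) ↔
        Exec e p' (fun _ => 0) w (fun _ => 0) := by
  obtain ⟨p', hp'⟩ := Pool.Agent.W52.FG.G3.lift_prog (Pool.Agent.W52.FG.G3.regs p) p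
    (Finset.Subset.refl _)
  refine ⟨{i // i ∈ Pool.Agent.W52.FG.G3.regs p}, inferInstance, inferInstance, p',
    fun e w => ⟨fun h => ?_, fun h => ?_⟩⟩
  · rw [← hp'] at h
    exact (Pool.Agent.W52.FG.G3.fwd Subtype.val_injective p' _ _ _ h).2
  · obtain ⟨s', h1, h2, h3⟩ := Pool.Agent.W52.FG.G3.bwd (K := K) Subtype.val_injective h
      (fun _ => 0) rfl
    have h4 : s' = fun _ => 0 := by
      funext i
      by_cases hi : i ∈ Pool.Agent.W52.FG.G3.regs p
      · exact congrFun h1 ⟨i, hi⟩
      · refine h2 i ?_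
        rintro ⟨j, rfl⟩
        exact hi j.2
    rw [hp', h4] at h3
    exact h3

/-- every recursively enumerable language is the language of a finite automaton with finitely many
exact counters -/
theorem re_counter {k : ℕ} (L : Set (List (Fin k))) (hL : REPred fun w => w ∈ L) :
    ∃ (K Q : Type) (_ : DecidableEq K) (_ : Finite K) (_ : Finite Q) (q0 qf : Q)
      (δ : Set (Q × Op (Fin k) K × Q)), δ.Finite ∧ ∀ w : List (Fin k), w ∈ L ↔
        Pool.Agent.W937.FG.Path false δ q0 (fun _ => 0) w qf (fun _ => 0) := by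
  obtain ⟨f, hf, hfL⟩ := exists_f L hL
  obtain ⟨p, hp⟩ := exists_prog k f hf
  obtain ⟨K', dK', fK', p', hp'⟩ := regs_finite (Fin k) ℕ p
  obtain ⟨Q, fQ, q0, qf, δ, hδ, hQ⟩ := Pool.Agent.W937.FG.G1.main (Fin k) K' p'
  refine ⟨K', Q, dK', fK', fQ, q0, qf, δ, hδ, fun w => ?_⟩
  rw [hfL w, ← hQ false, ← hp' false w, hp w]
  have := codeN_eq w []
  rw [List.append_nil] at this
  have h0 : Encodable.encode ([] : List (Fin k)) = 0 := rfl
  rw [h0] at this
  rw [this]

end Pool.Agent.R574.RE
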