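import Pool.Agent.R574.RE.Main
import Pool.Agent.S15649

set_option autoImplicit false

/-!
One-sided random context grammars simulate finite automata with exact counters.
-/

namespace Pool.Agent.R574.RE.RC

open Relation
open Pool.Agent.W937.FG (Op ExecO)
open Pool.Agent.S15649 (GR)

variable {T K Q : Type} [DecidableEq K]

theorem path_trans {e : Bool} {δ : Set (Q × Op T K × Q)} {q q' q'' : Q} {s s' s'' : K → ℕ}
    {w x : List T} (h1 : Pool.Agent.W937.FG.Path e δ q s w q' s')
    (h2 : Pool.Agent.W937.FG.Path e δ q' s' x q'' s'') :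
    Pool.Agent.W937.FG.Path e δ q s (w ++ x) q'' s'' := by
  induction h1 with
  | refl q s => simpa using h2
  | step hδ h3 _ ih =>
    rw [List.append_assoc]
    exact Pool.Agent.W937.FG.Path.step hδ h3 (ih h2)

theorem path_snoc {e : Bool} {δ : Set (Q × Op T K × Q)} {q q' q'' : Q} {s s' s'' : K → ℕ}
    {w x : List T} {o : Op T K} (h1 : Pool.Agent.W937.FG.Path e δ q s w q' s')
    (hδ : (q', o, q'') ∈ δ) (h2 : ExecO e o s' x s'') :
    Pool.Agent.W937.FG.Path e δ q s (w ++ x) q'' s'' := by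
  refine path_trans h1 ?_
  have := Pool.Agent.W937.FG.Path.step hδ h2 (Pool.Agent.W937.FG.Path.refl q'' s'')
  simpa using this

/-- the nonterminals -/
inductive NT (K Q E : Type)
  | st (q : Q)
  | tr (d : E)
  | t2 (d : E)
  | cnt (i : K)
  | mk

section gram

variable (δ : Set (Q × Op T K × Q)) (q0 qf : Q)

abbrev E : Type := {d // d ∈ δ}

/-- the rule names -/
inductive RN (δ : Set (Q × Op T K × Q))
  | a (d : E δ)
  | b (d : E δ) (i : K) (h : d.1.2.1 = Op.dec i)
  | c (d : E δ)
  | d (d : E δ)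
  | f (d : E δ)
  | z

abbrev N : Type := NT K Q (E δ)

abbrev S : Type := Symbol T (N δ)

/-- a nonterminal symbol -/
abbrev n (x : N δ) : S δ := Symbol.nonterminal x

/-- the result of a transition -/
def res (d : E δ) : List (S δ) :=
  match d.1.2.1 with
  | Op.nop => [n δ (NT.st d.1.2.2)]
  | Op.inc i => [n δ (NT.st d.1.2.2), n δ (NT.cnt i)]
  | Op.out c => [Symbol.terminal c, n δ (NT.st d.1.2.2)]
  | Op.zero _ => [n δ (NT.st d.1.2.2)]
  | Op.dec _ => [n δ (NT.tr d)]

/-- the forbidding context of a transition -/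
def forb [Finite K] (d : E δ) : Finset (N δ) :=
  match d.1.2.1 with
  | Op.zero i => {NT.cnt i}
  | _ => ∅

/-- all counter letters -/
noncomputable def allC [Finite K] : Finset (N δ) :=
  (Set.finite_range (fun i : K => (NT.cnt i : N δ))).toFinset

open Classical in
/-- the grammar -/
noncomputable def g [Finite K] : GR T (N δ) (RN δ) where
  lhs := fun ρ => match ρ with
    | .a d => NT.st d.1.1
    | .b _ i _ => NT.cnt i
    | .c d => NT.tr d
    | .d _ => NT.mk
    | .f d => NT.t2 d
    | .z => NT.st qf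
  rhs := fun ρ => match ρ with
    | .a d => res δ d
    | .b _ _ _ => [n δ NT.mk]
    | .c d => [n δ (NT.t2 d)]
    | .d _ => []
    | .f d => [n δ (NT.st d.1.2.2)]
    | .z => []
  side := fun ρ => match ρ with
    | .a _ => true
    | .b _ _ _ => false
    | .c _ => true
    | .d _ => false
    | .f _ => true
    | .z => true
  U := fun ρ => match ρ with
    | .a _ => ∅
    | .b d _ _ => {NT.tr d}
    | .c _ => {NT.mk}
    | .d d => {NT.t2 d}
    | .f _ => ∅
    | .z => ∅
  W := fun ρ => match ρ with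
    | .a d => forb δ d
    | .b _ i _ => {NT.cnt i, NT.mk}
    | .c _ => ∅
    | .d _ => ∅
    | .f _ => {NT.mk}
    | .z => allC δ

omit [DecidableEq K] in
theorem finite_N [Finite K] [Finite Q] (hδ : δ.Finite) : Finite (N δ) := by
  have h1 : Finite (E δ) := hδ.to_subtype
  let f : N δ → (Q ⊕ K) ⊕ (E δ ⊕ E δ) ⊕ Unit
    | NT.st q => Sum.inl (Sum.inl q)
    | NT.cnt i => Sum.inl (Sum.inr i)
    | NT.tr d => Sum.inr (Sum.inl (Sum.inl d))
    | NT.t2 d => Sum.inr (Sum.inl (Sum.inr d))
    | NT.mk => Sum.inr (Sum.inr ())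
  refine Finite.of_injective f ?_
  intro a b h
  cases a <;> cases b <;> simp [f] at h ⊢ <;> exact h

omit [DecidableEq K] in
theorem finite_R [Finite K] (hδ : δ.Finite) : Finite (RN δ) := by
  have h1 : Finite (E δ) := hδ.to_subtype
  let f : RN δ → (E δ ⊕ (E δ × K)) ⊕ (E δ ⊕ E δ ⊕ E δ) ⊕ Unit
    | .a d => Sum.inl (Sum.inl d)
    | .b d i _ => Sum.inl (Sum.inr (d, i))
    | .c d => Sum.inr (Sum.inl (Sum.inl d))
    | .d d => Sum.inr (Sum.inl (Sum.inr (Sum.inl d)))
    | .f d => Sum.inr (Sum.inl (Sum.inr (Sum.inr d)))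
    | .z => Sum.inr (Sum.inr ())
  refine Finite.of_injective f ?_
  intro a b h
  cases a <;> cases b <;> simp [f] at h ⊢ <;> first | exact h | exact ⟨h.1, h.2⟩

/-- outputs -/
def O (w : List T) : List (S δ) := w.map Symbol.terminal

/-- counters -/
def C (cs : List K) : List (S δ) := cs.map (fun i => n δ (NT.cnt i))

/-- head symbols -/
def IsHd (x : S δ) : Prop :=
  (∃ q, x = n δ (NT.st q)) ∨ (∃ d, x = n δ (NT.tr d)) ∨ (∃ d, x = n δ (NT.t2 d))

variable {δ q0 qf}

omit [DecidableEq K] in
theorem not_hd_O {w : List T} : ∀ x ∈ O δ w, ¬ IsHd δ x := by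
  intro x hx
  obtain ⟨X, _, rfl⟩ := List.mem_map.mp hx
  rintro (⟨_, h⟩ | ⟨_, h⟩ | ⟨_, h⟩) <;> simp at h

omit [DecidableEq K] in
theorem not_hd_C {cs : List K} : ∀ x ∈ C δ cs, ¬ IsHd δ x := by
  intro x hx
  obtain ⟨X, _, rfl⟩ := List.mem_map.mp hx
  rintro (⟨_, h⟩ | ⟨_, h⟩ | ⟨_, h⟩) <;> simp [n] at h

omit [DecidableEq K] in
theorem not_hd_mk : ¬ IsHd δ (n δ NT.mk) := by
  rintro (⟨_, h⟩ | ⟨_, h⟩ | ⟨_, h⟩) <;> simp [n] at h

theorem uniq {α : Type} (p : α → Prop) {a1 b1 a2 b2 : List α} {h h' : α}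
    (ha : ∀ x ∈ a1, ¬ p x) (hb : ∀ x ∈ b1, ¬ p x) (hh : p h')
    (he : a1 ++ h :: b1 = a2 ++ h' :: b2) : a1 = a2 ∧ h = h' ∧ b1 = b2 := by
  induction a1 generalizing a2 with
  | nil =>
    cases a2 with
    | nil =>
      simp only [List.nil_append, List.cons.injEq] at he
      exact ⟨rfl, he⟩
    | cons x a2 =>
      simp only [List.nil_append, List.cons_append, List.cons.injEq] at he
      exact absurd hh (hb h' (by rw [he.2]; simp))
  | cons x a1 ih =>
    cases a2 with
    | nil =>
      simp only [List.nil_append, List.cons_append, List.cons.injEq] at he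
      rw [← he.1] at hh
      exact absurd hh (ha x List.mem_cons_self)
    | cons y a2 =>
      simp only [List.cons_append, List.cons.injEq] at he
      obtain ⟨h1, h2, h3⟩ := ih (fun z hz => ha z (List.mem_cons_of_mem _ hz)) he.2
      exact ⟨by rw [he.1, h1], h2, h3⟩

/-- register contents -/
def cn (cs : List K) : K → ℕ := fun i => cs.count i

theorem cn_nil : cn ([] : List K) = fun _ => 0 := by
  funext i
  simp [cn]

theorem cn_cons (i : K) (cs : List K) : cn (i :: cs) = Function.update (cn cs) i (cn cs i + 1) := by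
  funext j
  by_cases h : j = i
  · subst h
    simp [cn]
  · rw [Function.update_of_ne h]
    simp only [cn]
    rw [List.count_cons_of_ne (fun h' => h h'.symm)]

theorem cn_dec (i : K) (a b : List K) : 0 < cn (a ++ i :: b) i ∧ cn (a ++ b) =
    Function.update (cn (a ++ i :: b)) i (cn (a ++ i :: b) i - 1) := by
  refine ⟨by simp [cn], ?_⟩
  funext j
  by_cases h : j = i
  · subst h
    simp [cn, List.count_append, List.count_cons]
  · rw [Function.update_of_ne h]
    have : i ≠ j := fun h' => h h'.symm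
    simp [cn, List.count_append, List.count_cons, this]

/-- the forms: output, head, suffix -/
inductive Form (δ : Set (Q × Op T K × Q)) (q0 qf : Q) : List T → S δ → List (S δ) → Prop
  | st (w : List T) (q : Q) (cs : List K)
      (h : Pool.Agent.W937.FG.Path false δ q0 (fun _ => 0) w q (cn cs)) :
      Form δ q0 qf w (n δ (NT.st q)) (C δ cs)
  | tr (w : List T) (d : E δ) (i : K) (cs : List K) (hd : d.1.2.1 = Op.dec i)
      (h : Pool.Agent.W937.FG.Path false δ q0 (fun _ => 0) w d.1.1 (cn cs)) :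
      Form δ q0 qf w (n δ (NT.tr d)) (C δ cs)
  | tr' (w : List T) (d : E δ) (i : K) (a b : List K) (hd : d.1.2.1 = Op.dec i) (hi : i ∉ a)
      (h : Pool.Agent.W937.FG.Path false δ q0 (fun _ => 0) w d.1.1 (cn (a ++ i :: b))) :
      Form δ q0 qf w (n δ (NT.tr d)) (C δ a ++ n δ NT.mk :: C δ b)
  | t2 (w : List T) (d : E δ) (i : K) (a b : List K) (hd : d.1.2.1 = Op.dec i)
      (h : Pool.Agent.W937.FG.Path false δ q0 (fun _ => 0) w d.1.1 (cn (a ++ i :: b))) :
      Form δ q0 qf w (n δ (NT.t2 d)) (C δ a ++ n δ NT.mk :: C δ b)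
  | t2' (w : List T) (d : E δ) (cs : List K)
      (h : Pool.Agent.W937.FG.Path false δ q0 (fun _ => 0) w d.1.2.2 (cn cs)) :
      Form δ q0 qf w (n δ (NT.t2 d)) (C δ cs)

theorem Form.no_hd {w : List T} {b : List (S δ)} {h : S δ} (hf : Form δ q0 qf w h b) :
    ∀ x ∈ b, ¬ IsHd δ x := by
  have key : ∀ (a b : List K) (x : S δ), x ∈ C δ a ++ n δ NT.mk :: C δ b → ¬ IsHd δ x := by
    intro a b x hx
    rcases List.mem_append.mp hx with h1 | h1
    · exact not_hd_C x h1
    · rcases List.mem_cons.mp h1 with h2 | h2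
      · rw [h2]
        exact not_hd_mk
      · exact not_hd_C x h2
  cases hf with
  | st q cs h => exact not_hd_C
  | tr d i cs hd h => exact not_hd_C
  | tr' d i a b hd hi h => exact key a b
  | t2 d i a b hd h => exact key a b
  | t2' d cs h => exact not_hd_C

theorem form_match {w : List T} {a b b' : List (S δ)} {h h' : S δ} (hf : Form δ q0 qf w h b)
    (hh : IsHd δ h') (he : O δ w ++ h :: b = a ++ h' :: b') : O δ w = a ∧ h = h' ∧ b = b' :=
  uniq (IsHd δ) not_hd_O hf.no_hd hh he

/-- the invariant -/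
def Inv (δ : Set (Q × Op T K × Q)) (q0 qf : Q) (α : List (S δ)) : Prop :=
  (∃ w h b, Form δ q0 qf w h b ∧ α = O δ w ++ h :: b) ∨
  (∃ w, α = O δ w ∧ Pool.Agent.W937.FG.Path false δ q0 (fun _ => 0) w qf (fun _ => 0))

omit [DecidableEq K] in
theorem C_split {cs : List K} {u v : List (S δ)} {i : K}
    (h : C δ cs = u ++ n δ (NT.cnt i) :: v) :
    ∃ a b, cs = a ++ i :: b ∧ u = C δ a ∧ v = C δ b := by
  induction cs generalizing u with
  | nil => simp [C] at h
  | cons j cs ih =>
    cases u with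
    | nil =>
      simp only [C, List.map_cons, List.nil_append, List.cons.injEq, n,
        Symbol.nonterminal.injEq, NT.cnt.injEq] at h
      obtain ⟨rfl, h⟩ := h
      exact ⟨[], cs, rfl, rfl, h.symm⟩
    | cons x u =>
      simp only [C, List.map_cons, List.cons_append, List.cons.injEq] at h
      obtain ⟨h1, h2⟩ := h
      obtain ⟨a, b, rfl, rfl, rfl⟩ := ih h2
      exact ⟨j :: a, b, rfl, by rw [← h1]; rfl, rfl⟩

omit [DecidableEq K] in
theorem mk_not_mem_C {cs : List K} : n δ NT.mk ∉ C δ cs := by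
  intro h
  obtain ⟨X, _, hX⟩ := List.mem_map.mp h
  simp [n] at hX

omit [DecidableEq K] in
theorem cnt_mem_C {cs : List K} {i : K} : n δ (NT.cnt i) ∈ C δ cs ↔ i ∈ cs := by
  simp [C, n]

omit [DecidableEq K] in
theorem mk_split {a b : List K} {u v : List (S δ)}
    (h : C δ a ++ n δ NT.mk :: C δ b = u ++ n δ NT.mk :: v) : u = C δ a ∧ v = C δ b := by
  obtain ⟨h1, _, h2⟩ := uniq (fun x => x = n δ NT.mk) (a1 := C δ a) (b1 := C δ b) (a2 := u)
    (b2 := v) (h := n δ NT.mk) (h' := n δ NT.mk) (by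
      intro x hx h
      rw [h] at hx
      exact mk_not_mem_C hx) (by
      intro x hx h
      rw [h] at hx
      exact mk_not_mem_C hx) rfl h
  exact ⟨h1.symm, h2.symm⟩

theorem inv_step [Finite K] {α β : List (S δ)} (hα : Inv δ q0 qf α)
    (h : (g δ qf).Step α β) : Inv δ q0 qf β := by
  classical
  obtain ⟨ρ, u, v, hα', rfl, hc⟩ := h
  have e0 : ∀ x : S δ, u ++ [x] ++ v = u ++ x :: v := fun x => by simp
  rw [e0] at hα'
  rcases hα with ⟨w, h, b, hf, he⟩ | ⟨w, he, hp⟩
  swap
  · exfalso
    rw [hα'] at he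
    have h1 : n δ ((g δ qf).lhs ρ) ∈ O δ w := by
      rw [← he]
      simp
    simp [O] at h1
  rw [hα'] at he
  cases ρ with
  | a d =>
    obtain ⟨h1, h2, rfl⟩ := form_match hf (Or.inl ⟨d.1.1, rfl⟩) he.symm
    subst h1
    cases hf with
    | tr d i cs hd h => simp [n] at h2
    | tr' d i a b hd hi h => simp [n] at h2
    | t2 d i a b hd h => simp [n] at h2
    | t2' d cs h => simp [n] at h2
    | st q cs h =>
      simp only [n, Symbol.nonterminal.injEq, NT.st.injEq] at h2
      subst h2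
      obtain ⟨⟨q1, o, q2⟩, hd⟩ := d
      rcases hc with ⟨hs, _⟩ | ⟨_, _, hW⟩
      · simp [g] at hs
      cases o with
      | nop =>
        refine Or.inl ⟨w, _, _, Form.st w q2 cs ?_, by simp [g, res]⟩
        have := path_snoc h hd (show ExecO false Op.nop (cn cs) [] (cn cs) from ⟨rfl, rfl⟩)
        simpa using this
      | inc i =>
        refine Or.inl ⟨w, _, _, Form.st w q2 (i :: cs) ?_, by simp [g, res, C]⟩
        have := path_snoc h hd (show ExecO false (Op.inc i) (cn cs) [] (cn (i :: cs)) from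
          ⟨rfl, cn_cons i cs⟩)
        simpa using this
      | dec i =>
        exact Or.inl ⟨w, _, _, Form.tr w ⟨(q1, Op.dec i, q2), hd⟩ i cs rfl h, by simp [g, res]⟩
      | zero i =>
        refine Or.inl ⟨w, _, _, Form.st w q2 cs ?_, by simp [g, res]⟩
        have h3 : i ∉ cs := by
          intro hi
          refine hW (NT.cnt i) (by simp [g, forb]) ?_
          exact cnt_mem_C.mpr hi
        have := path_snoc h hd (show ExecO false (Op.zero i) (cn cs) [] (cn cs) from
          ⟨rfl, List.count_eq_zero.mpr h3, rfl⟩)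
        simpa using this
      | out c =>
        refine Or.inl ⟨w ++ [c], _, _, Form.st (w ++ [c]) q2 cs ?_, by simp [g, res, O]⟩
        exact path_snoc h hd (show ExecO false (Op.out c) (cn cs) [c] (cn cs) from ⟨rfl, rfl⟩)
  | b d i hdi =>
    rcases hc with ⟨_, hU, hW⟩ | ⟨hs, _⟩
    swap
    · simp [g] at hs
    have h1 : n δ (NT.tr d) ∈ u := hU (NT.tr d) (by simp [g])
    have h2 : n δ (NT.cnt i) ∉ u := hW (NT.cnt i) (by simp [g])
    have h3 : n δ NT.mk ∉ u := hW NT.mk (by simp [g])
    obtain ⟨u1, u2, rfl⟩ := List.append_of_mem h1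
    have he' : O δ w ++ h :: b = u1 ++ n δ (NT.tr d) :: (u2 ++ n δ (NT.cnt i) :: v) := by
      rw [← he]
      simp [g]
    obtain ⟨h4, h5, h6⟩ := form_match hf (Or.inr (Or.inl ⟨d, rfl⟩)) he'
    cases hf with
    | st q cs h => simp [n] at h5
    | t2 d i a b hd h => simp [n] at h5
    | t2' d cs h => simp [n] at h5
    | tr d' i' cs hd h =>
      simp only [n, Symbol.nonterminal.injEq, NT.tr.injEq] at h5
      subst h5
      obtain ⟨a, b, rfl, rfl, rfl⟩ := C_split h6
      refine Or.inl ⟨w, _, _, Form.tr' w d' i a b hdi ?_ h, ?_⟩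
      · intro hi
        exact h2 (List.mem_append_right _ (List.mem_cons_of_mem _ (cnt_mem_C.mpr hi)))
      · rw [← h4]
        simp [g]
    | tr' d' i' a b hd hi h =>
      simp only [n, Symbol.nonterminal.injEq, NT.tr.injEq] at h5
      subst h5
      exfalso
      rw [hdi] at hd
      simp only [Op.dec.injEq] at hd
      subst hd
      have h7 : n δ (NT.cnt i) ∉ C δ a := fun h => hi (cnt_mem_C.mp h)
      -- the marked letter is left of the occurrence
      rcases List.append_eq_append_iff.mp h6 with ⟨c, h8, h9⟩ | ⟨c, h8, h9⟩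
      · cases c with
        | nil => simp [n] at h9
        | cons y c =>
          simp only [List.cons_append, List.cons.injEq] at h9
          refine h3 ?_
          rw [h8, ← h9.1]
          simp
      · cases c with
        | nil => simp [n] at h9
        | cons y c =>
          simp only [List.cons_append, List.cons.injEq] at h9
          refine h7 ?_
          rw [h8, ← h9.1]
          simp
  | c d =>
    obtain ⟨h1, h2, rfl⟩ := form_match hf (Or.inr (Or.inl ⟨d, rfl⟩)) he.symm
    subst h1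
    rcases hc with ⟨hs, _⟩ | ⟨_, hU, _⟩
    · simp [g] at hs
    have h3 : n δ NT.mk ∈ b := hU NT.mk (by simp [g])
    cases hf with
    | st q cs h => simp [n] at h2
    | t2 d i a b hd h => simp [n] at h2
    | t2' d cs h => simp [n] at h2
    | tr d' i' cs hd h => exact absurd h3 mk_not_mem_C
    | tr' d' i' a b hd hi h =>
      simp only [n, Symbol.nonterminal.injEq, NT.tr.injEq] at h2
      subst h2
      exact Or.inl ⟨w, _, _, Form.t2 w d' i' a b hd h, by simp [g]⟩
  | d d =>
    rcases hc with ⟨_, hU, hW⟩ | ⟨hs, _⟩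
    swap
    · simp [g] at hs
    have h1 : n δ (NT.t2 d) ∈ u := hU (NT.t2 d) (by simp [g])
    obtain ⟨u1, u2, rfl⟩ := List.append_of_mem h1
    have he' : O δ w ++ h :: b = u1 ++ n δ (NT.t2 d) :: (u2 ++ n δ NT.mk :: v) := by
      rw [← he]
      simp [g]
    obtain ⟨h4, h5, h6⟩ := form_match hf (Or.inr (Or.inr ⟨d, rfl⟩)) he'
    cases hf with
    | st q cs h => simp [n] at h5
    | tr d' i' cs hd h => simp [n] at h5
    | tr' d' i' a b hd hi h => simp [n] at h5
    | t2' d' cs h =>
      exfalso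
      refine mk_not_mem_C (δ := δ) (cs := cs) ?_
      rw [h6]
      simp
    | t2 d' i' a b hd h =>
      simp only [n, Symbol.nonterminal.injEq, NT.t2.injEq] at h5
      subst h5
      obtain ⟨rfl, rfl⟩ := mk_split h6
      obtain ⟨⟨q1, o, q2⟩, hd'⟩ := d'
      have ho : o = Op.dec i' := hd
      subst ho
      refine Or.inl ⟨w, _, _, Form.t2' w ⟨(q1, Op.dec i', q2), hd'⟩ (a ++ b) ?_, ?_⟩
      · obtain ⟨h7, h8⟩ := cn_dec i' a b
        have := path_snoc h hd' (show ExecO false (Op.dec i') _ [] (cn (a ++ b)) from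
          ⟨rfl, Or.inl ⟨h7, h8⟩⟩)
        simpa using this
      · rw [← h4]
        simp [g, C]
  | f d =>
    obtain ⟨h1, h2, rfl⟩ := form_match hf (Or.inr (Or.inr ⟨d, rfl⟩)) he.symm
    subst h1
    rcases hc with ⟨hs, _⟩ | ⟨_, _, hW⟩
    · simp [g] at hs
    have h3 : n δ NT.mk ∉ b := hW NT.mk (by simp [g])
    cases hf with
    | st q cs h => simp [n] at h2
    | tr d' i' cs hd h => simp [n] at h2
    | tr' d' i' a b hd hi h => simp [n] at h2
    | t2 d' i' a b hd h => exact absurd (by simp) h3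
    | t2' d' cs h =>
      simp only [n, Symbol.nonterminal.injEq, NT.t2.injEq] at h2
      subst h2
      exact Or.inl ⟨w, _, _, Form.st w d'.1.2.2 cs h, by simp [g]⟩
  | z =>
    obtain ⟨h1, h2, rfl⟩ := form_match hf (Or.inl ⟨qf, rfl⟩) he.symm
    subst h1
    rcases hc with ⟨hs, _⟩ | ⟨_, _, hW⟩
    · simp [g] at hs
    cases hf with
    | tr d i cs hd h => simp [n] at h2
    | tr' d i a b hd hi h => simp [n] at h2
    | t2 d i a b hd h => simp [n] at h2
    | t2' d cs h => simp [n] at h2
    | st q cs h =>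
      simp only [n, Symbol.nonterminal.injEq, NT.st.injEq] at h2
      subst h2
      have h3 : cs = [] := by
        cases cs with
        | nil => rfl
        | cons i cs =>
          exfalso
          refine hW (NT.cnt i) ?_ ?_
          · simp [g, allC]
          · exact cnt_mem_C.mpr List.mem_cons_self
      subst h3
      rw [cn_nil] at h
      exact Or.inr ⟨w, by simp [g, C], h⟩

/-! ### construction of derivations -/

/-- derivability -/
def Der [Finite K] (δ : Set (Q × Op T K × Q)) (qf : Q) (α β : List (S δ)) : Prop :=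
  ReflTransGen (g δ qf).Step α β

theorem mk_step [Finite K] (ρ : RN δ) (u v : List (S δ)) (x : N δ) (hx : (g δ qf).lhs ρ = x)
    (hc : (g δ qf).ctx ρ u v) : Der δ qf (u ++ n δ x :: v) (u ++ (g δ qf).rhs ρ ++ v) := by
  subst hx
  exact ReflTransGen.single ⟨ρ, u, v, by simp, rfl, hc⟩

theorem der_start [Finite K] (d : E δ) (w : List T) (cs : List K)
    (h : ∀ i, d.1.2.1 = Op.zero i → i ∉ cs) :
    Der δ qf (O δ w ++ n δ (NT.st d.1.1) :: C δ cs) (O δ w ++ res δ d ++ C δ cs) := by
  classical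
  refine mk_step (RN.a d) (O δ w) (C δ cs) (NT.st d.1.1) rfl (Or.inr ⟨rfl, by simp [g], ?_⟩)
  intro B hB
  simp only [g, forb] at hB
  split at hB
  · rename_i i hi
    rw [Finset.mem_singleton.mp hB]
    intro h1
    exact h i hi (cnt_mem_C.mp h1)
  · simp at hB

theorem der_decr [Finite K] (d : E δ) (i : K) (hd : d.1.2.1 = Op.dec i) (w : List T)
    (a b : List K) (ha : i ∉ a) :
    Der δ qf (O δ w ++ n δ (NT.st d.1.1) :: C δ (a ++ i :: b))
      (O δ w ++ n δ (NT.st d.1.2.2) :: C δ (a ++ b)) := by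
  classical
  have h1 := der_start (qf := qf) d w (a ++ i :: b) (by
    intro j hj
    rw [hd] at hj
    simp at hj)
  have e1 : O δ w ++ res δ d ++ C δ (a ++ i :: b) =
      (O δ w ++ [n δ (NT.tr d)] ++ C δ a) ++ n δ (NT.cnt i) :: C δ b := by
    simp [res, hd, C]
  rw [e1] at h1
  have h2 := mk_step (qf := qf) (RN.b d i hd) (O δ w ++ [n δ (NT.tr d)] ++ C δ a) (C δ b)
    (NT.cnt i) rfl (Or.inl ⟨rfl, by simp [g], by
      intro B hB
      simp only [g, Finset.mem_insert, Finset.mem_singleton] at hB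
      rcases hB with rfl | rfl
      · simpa [O, C, n] using ha
      · simp [O, C, n]⟩)
  have e2 : O δ w ++ [n δ (NT.tr d)] ++ C δ a ++ (g δ qf).rhs (RN.b d i hd) ++ C δ b =
      O δ w ++ n δ (NT.tr d) :: (C δ a ++ n δ NT.mk :: C δ b) := by
    simp [g]
  rw [e2] at h2
  have h3 := mk_step (qf := qf) (RN.c d) (O δ w) (C δ a ++ n δ NT.mk :: C δ b)
    (NT.tr d) rfl (Or.inr ⟨rfl, by simp [g], by simp [g]⟩)
  have e3 : O δ w ++ (g δ qf).rhs (RN.c d) ++ (C δ a ++ n δ NT.mk :: C δ b) =
      (O δ w ++ [n δ (NT.t2 d)] ++ C δ a) ++ n δ NT.mk :: C δ b := by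
    simp [g]
  rw [e3] at h3
  have h4 := mk_step (qf := qf) (RN.d d) (O δ w ++ [n δ (NT.t2 d)] ++ C δ a) (C δ b)
    NT.mk rfl (Or.inl ⟨rfl, by simp [g], by simp [g]⟩)
  have e4 : O δ w ++ [n δ (NT.t2 d)] ++ C δ a ++ (g δ qf).rhs (RN.d d) ++ C δ b =
      O δ w ++ n δ (NT.t2 d) :: C δ (a ++ b) := by
    simp [g, C]
  rw [e4] at h4
  have h5 := mk_step (qf := qf) (RN.f d) (O δ w) (C δ (a ++ b))
    (NT.t2 d) rfl (Or.inr ⟨rfl, by simp [g], by
      intro B hB
      simp only [g, Finset.mem_singleton] at hB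
      subst hB
      exact mk_not_mem_C⟩)
  have e5 : O δ w ++ (g δ qf).rhs (RN.f d) ++ C δ (a ++ b) =
      O δ w ++ n δ (NT.st d.1.2.2) :: C δ (a ++ b) := by
    simp [g]
  rw [e5] at h5
  exact ReflTransGen.trans h1 (ReflTransGen.trans h2 (ReflTransGen.trans h3
    (ReflTransGen.trans h4 h5)))

theorem der_of_path [Finite K] {q q' : Q} {s s' : K → ℕ} {w : List T}
    (h : Pool.Agent.W937.FG.Path false δ q s w q' s') :
    ∀ (cs : List K) (w0 : List T), cn cs = s → ∃ cs', cn cs' = s' ∧
      Der δ qf (O δ w0 ++ n δ (NT.st q) :: C δ cs) (O δ (w0 ++ w) ++ n δ (NT.st q') :: C δ cs') := by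
  induction h with
  | refl q s =>
    intro cs w0 hr
    refine ⟨cs, hr, ?_⟩
    rw [List.append_nil]
    exact ReflTransGen.refl
  | step hd h1 h2 ih =>
    rename_i q q' q'' o s s' s'' w x
    intro cs w0 hr
    subst hr
    have key : ∀ cs', cn cs' = s' →
        Der δ qf (O δ w0 ++ n δ (NT.st q) :: C δ cs)
          (O δ (w0 ++ w) ++ n δ (NT.st q') :: C δ cs') →
        ∃ cs'', cn cs'' = s'' ∧
          Der δ qf (O δ w0 ++ n δ (NT.st q) :: C δ cs)
            (O δ (w0 ++ (w ++ x)) ++ n δ (NT.st q'') :: C δ cs'') := by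
      intro cs' h3 h4
      obtain ⟨cs'', h5, h6⟩ := ih cs' (w0 ++ w) h3
      refine ⟨cs'', h5, ?_⟩
      rw [← List.append_assoc]
      exact ReflTransGen.trans h4 h6
    cases o with
    | nop =>
      obtain ⟨rfl, rfl⟩ := h1
      refine key cs rfl ?_
      have := der_start (qf := qf) ⟨(q, Op.nop, q'), hd⟩ w0 cs (by simp)
      simpa [res] using this
    | inc i =>
      obtain ⟨rfl, rfl⟩ := h1
      refine key (i :: cs) (cn_cons i cs) ?_
      have := der_start (qf := qf) ⟨(q, Op.inc i, q'), hd⟩ w0 cs (by simp)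
      simpa [res, C] using this
    | dec i =>
      obtain ⟨rfl, ⟨h3, rfl⟩ | ⟨h3, _⟩⟩ := h1
      · have h4 : i ∈ cs := List.count_pos_iff.mp h3
        obtain ⟨a, b, rfl, ha⟩ := List.eq_append_cons_of_mem h4
        refine key (a ++ b) (cn_dec i a b).2 ?_
        rw [List.append_nil]
        exact der_decr ⟨(q, Op.dec i, q'), hd⟩ i rfl w0 a b ha
      · exact absurd h3 (by simp)
    | zero i =>
      obtain ⟨rfl, h3, rfl⟩ := h1
      refine key cs rfl ?_
      have := der_start (qf := qf) ⟨(q, Op.zero i, q'), hd⟩ w0 cs (by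
        intro j hj
        have hj' : Op.zero i = (Op.zero j : Op T K) := hj
        simp only [Op.zero.injEq] at hj'
        subst hj'
        exact List.count_eq_zero.mp h3)
      simpa [res] using this
    | out c =>
      obtain ⟨rfl, rfl⟩ := h1
      refine key cs rfl ?_
      have := der_start (qf := qf) ⟨(q, Op.out c, q'), hd⟩ w0 cs (by simp)
      simpa [res, O] using this

theorem gen_iff [Finite K] (w : List T) :
    ReflTransGen (g δ qf).Step [Symbol.nonterminal (NT.st q0)] (w.map Symbol.terminal) ↔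
      Pool.Agent.W937.FG.Path false δ q0 (fun _ => 0) w qf (fun _ => 0) := by
  constructor
  · intro h
    have key : ∀ α : List (S δ), ReflTransGen (g δ qf).Step [n δ (NT.st q0)] α →
        Inv δ q0 qf α := by
      intro α hα
      induction hα with
      | refl =>
        refine Or.inl ⟨[], _, _, Form.st [] q0 [] ?_, rfl⟩
        rw [cn_nil]
        exact Pool.Agent.W937.FG.Path.refl _ _
      | tail _ h2 ih => exact inv_step ih h2
    rcases key _ h with ⟨w', h', b, hf, he⟩ | ⟨w', he, hp⟩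
    · exfalso
      have h2 : h' ∈ w.map Symbol.terminal := by
        rw [he]
        simp
      obtain ⟨t, _, rfl⟩ := List.mem_map.mp h2
      cases hf
    · have : w = w' := by
        refine List.map_injective_iff.mpr ?_ he
        intro x y hxy
        simpa using hxy
      rw [this]
      exact hp
  · intro hp
    obtain ⟨cs, h1, h2⟩ := der_of_path (qf := qf) hp [] [] cn_nil
    have h3 : cs = [] := by
      cases cs with
      | nil => rfl
      | cons i cs =>
        have := congrFun h1 i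
        simp [cn] at this
    subst h3
    have h4 := mk_step (qf := qf) (RN.z : RN δ) (O δ w) (C δ []) (NT.st qf) rfl
      (Or.inr ⟨rfl, by simp [g], by
        intro B hB
        simp [C]⟩)
    have e4 : O δ w ++ (g δ qf).rhs RN.z ++ C δ [] = w.map Symbol.terminal := by
      simp [g, C, O]
    rw [e4] at h4
    exact ReflTransGen.trans h2 h4

end gram

end Pool.Agent.R574.RE.RC
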